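import Mathlib
import Pool.Agent.U462.Sh.ZTwo

set_option autoImplicit false

/-!
# A twin pair in every interval `(n + 4, 2 ^ (n + 4))`: every set of exceptional intervals is possible
-/

namespace Pool.Agent.Results.MP_b51559_nt.AnySetOfIntervals

open Finset Filter
open scoped Topology
open Pool.Agent.U462.Sh.Law

/-- **Every set of exceptional intervals is possible.** For every set `N` of natural numbers there is a set
`S` of rough numbers `≥ 2` such that for `n` in `N` there is no `p`, `n + 4 < p < 2 ^ (n + 4)`, with `p` and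
`p + 2` in `S`, while the number of the `p` with `x ≤ p < 2 x` and `p`, `p + 2` in `S` tends to infinity if
`x` runs through numbers such that no `p`, `x ≤ p < 2 x`, lies in one of these intervals, and for which the
uniform Hardy–Littlewood law holds for all systems of linear forms and all intervals, except for those systems
with two forms `l, l + 2` for which `l` has in the interval a value `p` with `n + 4 < p < 2 ^ (n + 4)` for
some `n` in `N`. -/
theorem result : ∀ N : Set ℕ, ∃ S : Set ℕ, (∀ m ∈ S, 2 ≤ m ∧ Rough m) ∧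
    (∀ n ∈ N, ¬ ∃ p : ℕ, n + 4 < p ∧ p < 2 ^ (n + 4) ∧ p ∈ S ∧ p + 2 ∈ S) ∧
    (∀ K : ℕ, ∃ x₀ : ℕ, ∀ x : ℕ, x₀ ≤ x →
      (∀ p : ℕ, x ≤ p → p < 2 * x → ¬ ∃ n ∈ N, n + 4 < p ∧ p < 2 ^ (n + 4)) →
      K ≤ {p : ℕ | x ≤ p ∧ p < 2 * x ∧ p ∈ S ∧ p + 2 ∈ S}.ncard) ∧
    LawOn S (fun L u v => ∀ a b : ℤ, (a, b) ∈ L → (a, b + 2) ∈ L → ∀ m : ℕ, u ≤ m → m < v →
      ¬ ∃ n ∈ N, n + 4 < value (a, b) m ∧ value (a, b) m < 2 ^ (n + 4)) := by
  classical
  intro N
  obtain ⟨S, h1, h2, h3⟩ := Pool.Agent.U462.Sh.shiftOn {0, 2} (by simp) {t | ∃ n ∈ N, n + 4 < t ∧ t < 2 ^ (n + 4)}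
  have hlaw : LawOn S (fun L u v => ∀ a b : ℤ, (a, b) ∈ L → (a, b + 2) ∈ L → ∀ m : ℕ, u ≤ m → m < v →
      ¬ ∃ n ∈ N, n + 4 < value (a, b) m ∧ value (a, b) m < 2 ^ (n + 4)) := by
    refine Pool.Agent.U462.Sh.on_mono ?_ h3
    rintro L u v hL a b hab m hm1 hm2 h5
    exact hL a b (by simpa using hab 0 (by simp)) (by simpa using hab 2 (by simp)) m hm1 hm2 h5
  have hval : ∀ m : ℕ, value (1, 0) m = m := fun m => by simp [value]
  refine ⟨S, h1, ?_, ?_, hlaw⟩
  · rintro n hn ⟨p, h4, h5, h6, h7⟩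
    apply h2 p ⟨n, hn, h4, h5⟩
    intro d hd
    simp only [mem_insert, mem_singleton] at hd
    rcases hd with rfl | rfl
    · exact h6
    · exact h7
  · intro K
    obtain ⟨x0, hx0⟩ := Pool.Agent.U462.Sh.many_shift hlaw {0, 2} (by
      intro p hp
      have hp2 := hp.two_le
      by_cases h3 : p = 3
      · subst h3
        refine ⟨2, by norm_num, ?_⟩
        intro d hd
        simp only [mem_insert, mem_singleton] at hd
        rcases hd with rfl | rfl <;> norm_num
      · refine ⟨1, by omega, ?_⟩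
        intro d hd hdvd
        simp only [mem_insert, mem_singleton] at hd
        rcases hd with rfl | rfl
        · have := Nat.le_of_dvd (by norm_num) hdvd
          omega
        · exact h3 ((Nat.prime_dvd_prime_iff_eq hp Nat.prime_three).1 hdvd)) K
    refine ⟨x0, fun x hx hxT => (hx0 x hx ?_).trans ?_⟩
    · intro a b ha hb m hm1 hm2 hT
      simp only [Pool.Agent.U462.Sh.ssys_mem, mem_insert, mem_singleton, exists_eq_or_imp, exists_eq_left] at ha hb
      have hab : a = 1 ∧ b = 0 := by push_cast at ha hb; omega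
      obtain ⟨rfl, rfl⟩ := hab
      rw [hval] at hT
      exact hxT m hm1 hm2 hT
    · apply Set.ncard_le_ncard _ ((Set.finite_Iio (2 * x)).subset fun p hp => hp.2.1)
      rintro m ⟨hm1, hm2, hall⟩
      exact ⟨hm1, hm2, by simpa using hall 0 (by simp), hall 2 (by simp)⟩

end Pool.Agent.Results.MP_b51559_nt.AnySetOfIntervals
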