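import Mathlib
import Pool.Agent.U288.RO.N3

/-!
# Almost twin primes in every interval `(N, 2 N]`: the images of sparse patterns under arbitrary injective maps

All the twin primes except `3, 5` are `6 n - 1, 6 n + 1`. We consider the integers `n` with `6 n - 1` PRIME for which
`6 n + 1` is an almost prime. Fix `k` and `L`. For all large `X` and ANY `L` injective maps `φ_1, ..., φ_L` from
`{0, ..., X}` to the integers, for ALL large `N` a positive proportion of the vectors `0 < h_1 < ... < h_k ≤ X` for which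
all `h_j` and all `h_j - h_i` are shifted primes has the property: for ALL `j ≤ L` and ALL nonempty
`T ⊆ {h_1, ..., h_k}` there are `m` such that the `m + φ_j(t)`, `t ∈ T`, are in `(N, 2 N]`, they are consecutive terms of the
sequence of the `n` with `6 n - 1` prime, and `6 n + 1` is an almost prime for each of them; these `m` can be taken to form
a progression of any given length with difference at most a power of `log N`. The proportion and the order of the almost
primes do not depend on the maps, nor on `N`.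

Proof. By the theorem `Pool.Agent.R498.MP.stringsC` of the starting files (for the polynomial `x + 2` and the modulus
`6 q`), every set of `K₁` integers contains the patterns of such strings, of any length `s ≤ k` (`Nx.base_B`). By Ramsey's
theorem every set of `K` integers up to `X` contains `k + 1` elements `s_0 < ... < s_k` such that all the images of all the
nonempty parts of `{s_1 - s_0, ..., s_k - s_0}` are such patterns (`Nx.hered`). A family of patterns which is met by every
set of `K` integers contains a positive proportion of the patterns made of shifted primes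
(`Pool.Agent.U288.SP.principle`: counts of the configurations of `K` points and of pairs of them, and the inequality of
Cauchy and Schwarz).
-/

set_option autoImplicit false

namespace Pool.Agent.Results.MP_b51559_nt.ImagesInEveryInterval

open Filter Finset

open Classical in
/-- the vectors `0 = h 0 < h 1 < ... < h k ≤ X`; if `σ ≠ 0`, those with `h j - h i + σ` prime for all `0 ≤ i < j ≤ k` -/
noncomputable def patterns (k : ℕ) (σ : ℤ) (X : ℕ) : Finset (Fin (k + 1) → ℕ) :=
  (Fintype.piFinset (fun _ : Fin (k + 1) => range (X + 1))).filter (fun h => h 0 = 0 ∧ StrictMono h ∧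
    ∀ i j, i < j → σ ≠ 0 → ((h j : ℤ) - h i + σ).toNat.Prime)

/-- the number of the conditions -/
def edges (k : ℕ) (σ : ℤ) : ℕ := if σ = 0 then 0 else k * (k + 1) / 2

/-- the number `6 n - 1` is prime -/
def LowerPrime (n : ℤ) : Prop := (6 * n - 1).toNat.Prime

/-- `6 n + 1` has at most `r` prime factors (with multiplicity), and all of them are `≥ w` -/
def UpperAlmostPrime (r : ℕ) (w : ℝ) (n : ℤ) : Prop :=
  (6 * n + 1).natAbs.primeFactorsList.length ≤ r ∧ ∀ p : ℕ, p.Prime → (p : ℤ) ∣ 6 * n + 1 → w ≤ p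

/-- There is a progression of `l` terms `m' = m + i d`, `0 ≤ i < l`, with difference `1 ≤ d ≤ (log N) ^ B`, such that for
each of them: the integers `n = m' + v`, `v ∈ V`, are in `(N, 2 N]` and `≡ c (mod q)`, they have `6 n - 1` prime and
`6 n + 1` almost prime, and there are no other `n` with `6 n - 1` prime between them. -/
def Occurs (q c r : ℕ) (w : ℝ) (l B N : ℕ) (V : Finset ℤ) : Prop :=
  ∃ (m : ℤ) (d : ℕ), 1 ≤ d ∧ (d : ℝ) ≤ Real.log N ^ B ∧ ∀ i < l,
    (∀ v ∈ V, (N : ℤ) < m + i * d + v ∧ m + i * d + v ≤ 2 * N ∧ LowerPrime (m + i * d + v) ∧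
      m + i * d + v ≡ c [ZMOD q] ∧ UpperAlmostPrime r w (m + i * d + v)) ∧
    ∀ n : ℤ, LowerPrime n → (∃ v ∈ V, m + i * d + v ≤ n) → (∃ v ∈ V, n ≤ m + i * d + v) → ∃ v ∈ V, n = m + i * d + v

/-- the set `{h 1, ..., h k}` -/
def points {k : ℕ} (h : Fin (k + 1) → ℕ) : Finset ℕ := (univ : Finset (Fin k)).image (fun a => h a.succ)

open Classical in
/-- the patterns such that `φ_j(T)` occurs in `(N, 2 N]` for all `j` and all nonempty `T ⊆ {h 1, ..., h k}` -/
noncomputable def good {L : ℕ} (k : ℕ) (σ : ℤ) (q c r : ℕ) (w : ℝ) (l B N : ℕ) (φ : Fin L → ℕ → ℤ) (X : ℕ) :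
    Finset (Fin (k + 1) → ℕ) :=
  (patterns k σ X).filter (fun h => ∀ j, ∀ T ⊆ points h, T.Nonempty → Occurs q c r w l B N (T.image (φ j)))

/-- **Almost twin primes in every interval `(N, 2 N]`, in all the images of a positive proportion of the patterns made of
shifted primes.** The constants `c₁`, `C`, `δ`, `r` and the bound for `X` do not depend on the maps `φ`. -/
theorem result (k L q c : ℕ) (hq : Squarefree q) (h6 : Nat.Coprime 6 q)
    (hc : ∀ p : ℕ, p.Prime → p ∣ q → ¬ (p : ℤ) ∣ (6 * (c : ℤ) - 1) * (6 * c + 1)) (σ : ℤ)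
    (hσ : σ = 0 ∨ σ = 1 ∨ σ = -1) :
    ∃ (c₁ C δ : ℝ) (r : ℕ), 0 < c₁ ∧ 0 < δ ∧ ∃ X₀ : ℕ, ∀ X : ℕ, X₀ ≤ X →
      ((patterns k σ X).card : ℝ) ≤ C * ((X : ℝ) ^ k / Real.log X ^ edges k σ) ∧
      ∀ φ : Fin L → ℕ → ℤ, (∀ j, Set.InjOn (φ j) (Set.Iic X)) → ∀ l : ℕ, ∃ B N₀ : ℕ, ∀ N : ℕ, N₀ ≤ N →
        c₁ * ((X : ℝ) ^ k / Real.log X ^ edges k σ) ≤ ((good k σ q c r ((N : ℝ) ^ δ) l B N φ X).card : ℝ) := by
  classical
  obtain ⟨c₁, C, δ, r, hc1, hδ, h⟩ := Pool.Agent.U288.RO.Nx.fin_half k L q c hq h6 hc σ hσ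
  obtain ⟨X₀, h⟩ := eventually_atTop.1 h
  refine ⟨c₁, C, δ, r, hc1, hδ, X₀, fun X hX => ?_⟩
  obtain ⟨h1, h2⟩ := h X hX
  have e : (Pool.Agent.U288.SP.shifts (fun _ _ : Fin (k + 1) => σ) X) = patterns k σ X := by
    unfold Pool.Agent.U288.SP.shifts patterns
    congr!
  rw [e] at h1 h2
  refine ⟨h1, fun φ hφ l => ?_⟩
  obtain ⟨B, hB⟩ := h2 φ hφ l
  obtain ⟨N₀, hB⟩ := eventually_atTop.1 hB
  refine ⟨B, N₀, fun N hN => (hB N hN).trans (le_of_eq ?_)⟩
  unfold good
  congr!

end Pool.Agent.Results.MP_b51559_nt.ImagesInEveryInterval
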