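import Pool.Agent.U455.WINU

set_option autoImplicit false

/-!
# Every multiple of twelve up to the scale is a combination of three differences of primes in short windows

For every `s > 0` and `R` there is `C` such that for every `q ≥ 1`, every `η > 0` and ALL large `x`: for every `a` coprime
to `q` and EVERY multiple `t` of `6` with `1 ≤ t`, `C q² t ≤ x` there are `g₁`, `g₂`, `g₃` between `R t` and `C t` with
`t = g₁ + g₂ - g₃` such that for each of them the window `[x, (1 + s) x]` contains at least `x ^ (1 - η)` pairs of primes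
`p, p + 2 q gᵢ` with `p ≡ a (mod q)`. For `q = 1`: every multiple `t` of `12` with `t ≤ 2 x / C` is `d₁ + d₂ - d₃` with
differences `dᵢ ≤ C t` of `x ^ (1 - η)` pairs of primes in `[x, (1 + s) x]`.

Proof: two of any four classes of linear forms are hit by primes in narrow windows, uniformly in the constants up to the
scale (`Pool.Agent.TH899.UG.TD.core'`, starting files), hence any four admissible classes of shifts up to `x / C` contain
two shifts of different classes whose difference has the property (`Pool.Agent.U455.WINU.c4`). The ternary theorem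
for one set (`Pool.Agent.U455.TJ.all`) is made uniform over all sets by limits along ultrafilters
(`Pool.Agent.U455.UF.diff`) and applied to the set of the `k` for which `(t / 6) k` has the property.
-/

namespace Pool.Agent.Results.MP_b51559_nt.ThreeTermsAllMultiples

open Filter

/-- the number of the pairs of primes `p, p + d` in `[x, (1 + s) x]` with `p ≡ a (mod q)` -/
noncomputable def pairs (s : ℝ) (x q a d : ℕ) : ℕ :=
  {p : ℕ | p.Prime ∧ (p + d).Prime ∧ p ≡ a [MOD q] ∧ (x : ℝ) ≤ p ∧ ((p + d : ℕ) : ℝ) ≤ (1 + s) * x}.ncard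

theorem result (s : ℝ) (hs : 0 < s) (R : ℕ) : ∃ C : ℕ, ∀ q : ℕ, 1 ≤ q → ∀ η : ℝ, 0 < η →
    ∀ᶠ x : ℕ in atTop, ∀ a : ℕ, a.Coprime q → ∀ t : ℕ, 6 ∣ t → 1 ≤ t → C * (q ^ 2 * t) ≤ x →
    ∃ g₁ g₂ g₃ : ℕ, ((x : ℝ) ^ (1 - η) ≤ pairs s x q a (2 * q * g₁)) ∧
      ((x : ℝ) ^ (1 - η) ≤ pairs s x q a (2 * q * g₂)) ∧ ((x : ℝ) ^ (1 - η) ≤ pairs s x q a (2 * q * g₃)) ∧
      (R * t < g₁ ∧ g₁ ≤ C * t) ∧ (R * t < g₂ ∧ g₂ ≤ C * t) ∧ (R * t < g₃ ∧ g₃ ≤ C * t) ∧
      t + g₃ = g₁ + g₂ :=
  Pool.Agent.U455.WINU.linear s hs R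

end Pool.Agent.Results.MP_b51559_nt.ThreeTermsAllMultiples
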