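import Pool.Agent.U485.SM.All

/-!
# Twin pairs in the intervals `(n + 4, 2^(n + 4))` and right behind `n + 4`, in sieved random models of the primes

`T` is nondecreasing, tends to infinity, `T(n) = n^{o(1)}`; every `n` without prime factors `≤ T(n)` is chosen
independently with probability `min(1, ∏_{p ≤ T(n)} (1 - 1/p)⁻¹ / log n)`. Almost surely the number of the twin pairs of
chosen numbers in `(n + 4, 2^(n + 4))` is asymptotic to `2 C/(log 2)² 2^(n + 4)/n²`, and already the interval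
`(n + 4, n + 4 + n^η]` contains `(2 C + o(1)) n^η/(log n)²` of them.

Project HT: packages of helper891, helper660, helper139, helper803, helper445, helper373, helper741, helper668,
helper333, helper200, helper44, helper588, helper864.
-/

set_option autoImplicit false

namespace Pool.Agent.Results.MP_b51559_nt.TwinsInRandomModels

open MeasureTheory Filter Topology Pool.Agent.U485.SM

/-- the number of the twin pairs `p, p + 2` of `Q` with `n + 4 < p < 2 ^ (n + 4)` -/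
noncomputable def twins (Q : Set ℕ) (n : ℕ) : ℕ :=
  {p : ℕ | n + 4 < p ∧ p < 2 ^ (n + 4) ∧ p ∈ Q ∧ p + 2 ∈ Q}.ncard

/-- the number of the twin pairs `p, p + 2` of `Q` with `p` in `(n + 4, n + 4 + h]` -/
noncomputable def near (Q : Set ℕ) (n h : ℕ) : ℕ :=
  {p : ℕ | n + 4 < p ∧ p ≤ n + 4 + h ∧ p ∈ Q ∧ p + 2 ∈ Q}.ncard

/-- **Twin pairs behind `n + 4`, in sieved random models.** -/
theorem result : ∃ C : ℝ, 0 < C ∧
    Tendsto (fun y : ℕ => ∏ p ∈ (Finset.Icc 3 y).filter Nat.Prime, (1 - 1 / ((p : ℝ) - 1) ^ 2)) atTop (𝓝 C) ∧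
    ∀ (Ω : Type) [MeasurableSpace Ω] (μ : Measure Ω) [IsProbabilityMeasure μ] (T : ℕ → ℕ) (E : ℕ → Set Ω),
      Monotone T → Tendsto T atTop atTop → (∀ ε : ℝ, 0 < ε → ∀ᶠ n : ℕ in atTop, (T n : ℝ) ≤ (n : ℝ) ^ ε) →
      Model μ T E → ∀ᵐ ω ∂μ,
        Tendsto (fun n : ℕ => (twins {m | ω ∈ E m} n : ℝ) * (n : ℝ) ^ 2 / 2 ^ (n + 4)) atTop
          (𝓝 (2 * C / (Real.log 2) ^ 2)) ∧
        ∀ δ η : ℝ, 0 < δ → 0 < η → ∀ᶠ n : ℕ in atTop, ∀ h : ℕ, ((n + 4 : ℕ) : ℝ) ^ η ≤ h → h ≤ n + 4 →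
          |(near {m | ω ∈ E m} n h : ℝ) * (Real.log ((n + 4 : ℕ) : ℝ)) ^ 2 / h - 2 * C| ≤ δ := by
  obtain ⟨C, hC0, hC, hPP⟩ := co2
  refine ⟨C, hC0, hC, ?_⟩
  intro Ω _ μ _ T E hT hTt hTs hE
  filter_upwards [as_H hT hTt hTs hE] with ω hω
  refine ⟨dmr _ hω C hC, fun δ η hδ hη => ?_⟩
  have h2 := hPP 2 (by decide) (by norm_num)
  have e : (2 : ℕ).primeFactors.filter (fun p => 2 < p) = ∅ := by
    rw [Nat.Prime.primeFactors Nat.prime_two]
    decide
  rw [e, Finset.prod_empty, mul_one] at h2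
  have h3 := (tendsto_add_atTop_nat 4).eventually (hω {0, 2} _ h2 δ η hδ hη)
  filter_upwards [h3] with n hn h h4 h5
  have c : ({0, 2} : Finset ℕ).card = 2 := by decide
  have g := hn h h4 h5
  have hx0 : (0 : ℝ) < ((n + 4 : ℕ) : ℝ) := by positivity
  have hh : (0 : ℝ) < h := lt_of_lt_of_le (Real.rpow_pos_of_pos hx0 η) h4
  unfold num at g
  rw [c] at g
  simp only [Finset.mem_insert, Finset.mem_singleton, forall_eq_or_imp, forall_eq, add_zero] at g
  exact quot hh g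

end Pool.Agent.Results.MP_b51559_nt.TwinsInRandomModels
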